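import Pool.Agent.Work.MP_959bfa_wn.Interface2

/-! # MP_959bfa_co, block PARB2 (helper48): parameters of the gap (second version) -/

namespace Wn

open Finset

theorem PARB2 : stmt_PARB2 := by
  intro C hC
  have hCr : (1 : ℝ) ≤ C := by exact_mod_cast hC
  refine ⟨2 ^ 60 * C, by nlinarith [show (1 : ℝ) ≤ 2 ^ 60 by norm_num], ?_⟩
  intro F μ k0 n κ hF hμ hk hkκ hKF hKμ hn hnm
  have hK : (2 : ℝ) ^ 60 ≤ 2 ^ 60 * C := by nlinarith [show (0 : ℝ) < 2 ^ 60 by norm_num]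
  obtain ⟨r, hr⟩ : ∃ r : ℝ, r = Real.sqrt (k0 * κ) := ⟨_, rfl⟩
  have hk0 : (2 : ℝ) ^ 60 ≤ k0 := hK.trans hk
  have hk00 : (0 : ℝ) < k0 := lt_of_lt_of_le (by norm_num) hk0
  have hκ0 : (0 : ℝ) < κ := lt_of_lt_of_le hk00 hkκ
  have hμ0 : (0 : ℝ) < μ := by linarith
  have hn0 : (0 : ℝ) < n := by exact_mod_cast hn
  have hr2 : r ^ 2 = k0 * κ := by rw [hr]; exact Real.sq_sqrt (by positivity)
  have hkr : k0 ≤ r := by
    rw [hr]
    refine Real.le_sqrt_of_sq_le ?_
    nlinarith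
  have hr1 : (2 : ℝ) ^ 60 ≤ r := hk0.trans hkr
  have hrC : (2 : ℝ) ^ 60 * C ≤ r := hk.trans hkr
  have hrp : 0 < r := lt_of_lt_of_le (by norm_num) hr1
  rw [← hr]
  have hln : 0 ≤ Real.log n := Real.log_nonneg (by exact_mod_cast hn)
  have hlm : 0 ≤ Real.log μ := Real.log_nonneg hμ
  obtain ⟨L, hL⟩ : ∃ L : ℝ, L = max 1 (2 * Real.log n) := ⟨_, rfl⟩
  obtain ⟨w, hw⟩ : ∃ w : ℕ, w = ⌈5 * L⌉₊ := ⟨_, rfl⟩
  have hL1 : 1 ≤ L := by rw [hL]; exact le_max_left _ _
  have hLn : 2 * Real.log n ≤ L := by rw [hL]; exact le_max_right _ _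
  have hL2 : L ≤ 1 + 2 * Real.log n := by
    rw [hL]
    exact max_le (by linarith) (by linarith)
  have hw1 : 5 * L ≤ w := by rw [hw]; exact Nat.le_ceil _
  have hw2 : (w : ℝ) ≤ 6 * L := by
    have h1 : (w : ℝ) < 5 * L + 1 := by
      rw [hw]
      exact Nat.ceil_lt_add_one (by linarith)
    linarith
  have hw0 : (0 : ℝ) < w := by linarith
  have hwn : w ≠ 0 := by
    rintro rfl
    simp at hw0
  refine ⟨w, L, hL1, hw1, hw2, hLn, ?_⟩
  obtain ⟨z, hz⟩ : ∃ z : ℝ, z = Real.exp (r / 2 ^ 20) := ⟨_, rfl⟩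
  have hz0 : 0 < z := by rw [hz]; exact Real.exp_pos _
  -- `F ≤ z`
  have hFe : F ≤ z := by
    rw [hz]
    have h1 : Real.log F ≤ r / 2 ^ 20 := by
      rw [le_div_iff₀ (by norm_num)]
      have h2 : 0 ≤ Real.log F := Real.log_nonneg hF
      have h3 : Real.log F * 2 ^ 20 ≤ 2 ^ 60 * C * Real.log F := by
        have : (2 : ℝ) ^ 20 ≤ 2 ^ 60 * C := le_trans (by norm_num) hK
        nlinarith
      linarith
    calc F = Real.exp (Real.log F) := (Real.exp_log (by linarith)).symm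
      _ ≤ _ := Real.exp_le_exp.2 h1
  -- `log (1 + log μ) ≤ z`
  obtain ⟨l, hl⟩ : ∃ l : ℝ, l = Real.log (1 + Real.log μ) := ⟨_, rfl⟩
  have hl0 : 0 ≤ l := by rw [hl]; exact Real.log_nonneg (by linarith)
  have hle : 1 + l ≤ z := by
    rw [← hl] at hKμ
    rw [hz]
    have h1 : Real.log (1 + l) ≤ r / 2 ^ 20 := by
      rw [le_div_iff₀ (by norm_num)]
      have h2 : 0 ≤ Real.log (1 + l) := Real.log_nonneg (by linarith)
      have h3 : Real.log (1 + l) * 2 ^ 20 ≤ 2 ^ 60 * C * Real.log (1 + l) := by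
        have : (2 : ℝ) ^ 20 ≤ 2 ^ 60 * C := le_trans (by norm_num) hK
        nlinarith
      linarith
    calc 1 + l = Real.exp (Real.log (1 + l)) := (Real.exp_log (by linarith)).symm
      _ ≤ _ := Real.exp_le_exp.2 h1
  -- `100 r ≤ z`
  have hrz : 100 * r ≤ z := by
    have hx : (r / 2 ^ 20) ^ 2 / 2 ≤ Real.exp (r / 2 ^ 20) := by
      have := Real.quadratic_le_exp_of_nonneg (show 0 ≤ r / 2 ^ 20 by positivity)
      have h2 : 0 ≤ r / 2 ^ 20 := by positivity
      linarith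
    rw [hz]
    refine le_trans ?_ hx
    have e1 : (r / 2 ^ 20) ^ 2 / 2 = r * (r / 2 ^ 41) := by ring
    rw [e1, mul_comm]
    refine mul_le_mul_of_nonneg_left ?_ hrp.le
    rw [le_div_iff₀ (by norm_num)]
    exact le_trans (by norm_num) hr1
  -- `log w`
  have h4 : Real.log κ ≤ 2 * r := by
    have g1 : (κ : ℝ) ≤ r ^ 2 := by
      rw [hr2]
      have : (1 : ℝ) ≤ k0 := le_trans (by norm_num) hk0
      nlinarith
    have g2 := Real.log_le_log hκ0 g1
    rw [Real.log_pow] at g2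
    have g3 := Real.log_le_sub_one_of_pos hrp
    push_cast at g2
    linarith
  have h1 : Real.log n ≤ Real.log 4 + Real.log μ + Real.log κ := by
    rw [← Real.log_mul (by norm_num) hμ0.ne', ← Real.log_mul (by positivity) hκ0.ne']
    exact Real.log_le_log hn0 hnm
  have h2 : Real.log 4 ≤ 3 := by
    have := Real.log_le_sub_one_of_pos (show (0 : ℝ) < 4 by norm_num)
    linarith
  have hr100 : (100 : ℝ) ≤ r := le_trans (by norm_num) hr1
  have hwb : (w : ℝ) ≤ (25 * r) * (1 + Real.log μ) := by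
    have g1 : (w : ℝ) ≤ 42 + 12 * Real.log μ + 24 * r := by linarith
    have g2 : 0 ≤ r * Real.log μ := by positivity
    nlinarith
  have hlw : Real.log w ≤ 25 * r + l := by
    have g1 := Real.log_le_log hw0 hwb
    rw [Real.log_mul (by positivity) (by positivity), ← hl] at g1
    have g2 := Real.log_le_sub_one_of_pos (show (0 : ℝ) < 25 * r by positivity)
    linarith
  have hNl : ((Nat.log 2 w : ℕ) : ℝ) ≤ 2 * Real.log w := by
    have g1 : (2 : ℝ) ^ (Nat.log 2 w) ≤ w := by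
      exact_mod_cast Nat.pow_log_le_self 2 hwn
    have g2 := Real.log_le_log (by positivity) g1
    rw [Real.log_pow] at g2
    have g3 : (0.69 : ℝ) ≤ Real.log 2 := by
      have := Real.log_two_gt_d9
      linarith
    have g4 : (0 : ℝ) ≤ (Nat.log 2 w : ℕ) := Nat.cast_nonneg _
    nlinarith
  have hsum : ((Nat.log 2 w : ℕ) : ℝ) + 1 ≤ 3 * z := by
    linarith
  have hsq : (((Nat.log 2 w : ℕ) : ℝ) + 1) ^ 2 ≤ 9 * z ^ 2 := by
    have g1 : (0 : ℝ) ≤ ((Nat.log 2 w : ℕ) : ℝ) + 1 := by positivity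
    have g2 := pow_le_pow_left₀ g1 hsum 2
    refine g2.trans (le_of_eq ?_)
    ring
  have hleft : 12 * F * ((C * (Nat.log 2 w + 1) ^ 2 : ℕ) : ℝ) * Real.exp (-(r / 2 ^ 15)) ≤
      23328 * C * Real.exp (-(r / 2 ^ 16)) := by
    push_cast
    have g1 : 12 * F * (C * (((Nat.log 2 w : ℕ) : ℝ) + 1) ^ 2) ≤ 12 * z * (C * (9 * z ^ 2)) := by
      refine mul_le_mul (by linarith) ?_ (by positivity) (by positivity)
      exact mul_le_mul_of_nonneg_left hsq (by positivity)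
    have g2 : 12 * z * (C * (9 * z ^ 2)) * Real.exp (-(r / 2 ^ 15)) =
        108 * C * Real.exp (3 * (r / 2 ^ 20) - r / 2 ^ 15) := by
      have e1 : Real.exp (3 * (r / 2 ^ 20) - r / 2 ^ 15) = z ^ 3 * Real.exp (-(r / 2 ^ 15)) := by
        rw [hz, ← Real.exp_nat_mul, ← Real.exp_add]
        congr 1
      rw [e1]
      ring
    calc 12 * F * (C * (((Nat.log 2 w : ℕ) : ℝ) + 1) ^ 2) * Real.exp (-(r / 2 ^ 15))
        ≤ 12 * z * (C * (9 * z ^ 2)) * Real.exp (-(r / 2 ^ 15)) :=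
          mul_le_mul_of_nonneg_right g1 (Real.exp_pos _).le
      _ = 108 * C * Real.exp (3 * (r / 2 ^ 20) - r / 2 ^ 15) := g2
      _ ≤ 23328 * C * Real.exp (-(r / 2 ^ 16)) := by
          refine mul_le_mul ?_ ?_ (Real.exp_pos _).le (by positivity)
          · nlinarith
          · refine Real.exp_le_exp.2 ?_
            have e1 : r / 2 ^ 15 = 32 * (r / 2 ^ 20) := by ring
            have e2 : r / 2 ^ 16 = 16 * (r / 2 ^ 20) := by ring
            have e4 : 0 ≤ r / 2 ^ 20 := by positivity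
            rw [e1, e2]
            linarith
  -- right side
  have hright : 1 / r / 8 ≤ k0 * Real.sqrt (Real.sqrt (k0 / κ)) / 8 := by
    have g1 : (1 : ℝ) ≤ r := le_trans (by norm_num) hr1
    have g0 : (1 : ℝ) ≤ k0 := le_trans (by norm_num) hk0
    have g2 : 1 / r ≤ Real.sqrt (k0 / κ) := by
      refine Real.le_sqrt_of_sq_le ?_
      rw [div_pow, one_pow, hr2, div_le_div_iff₀ (by positivity) hκ0]
      nlinarith
    have g3 : 1 / r ≤ Real.sqrt (Real.sqrt (k0 / κ)) := by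
      refine Real.le_sqrt_of_sq_le (le_trans ?_ g2)
      have g4 : 1 / r ≤ 1 := by
        rw [div_le_one hrp]
        exact g1
      have g5 : 0 ≤ 1 / r := by positivity
      nlinarith
    have g4 : 1 * (1 / r) ≤ k0 * Real.sqrt (Real.sqrt (k0 / κ)) :=
      mul_le_mul g0 g3 (by positivity) hk00.le
    linarith
  refine hleft.trans (le_trans ?_ hright)
  -- 23328 C exp(-x) ≤ 1 / (8 r)
  have hx : (r / 2 ^ 16) ^ 2 / 2 ≤ Real.exp (r / 2 ^ 16) := by
    have := Real.quadratic_le_exp_of_nonneg (show 0 ≤ r / 2 ^ 16 by positivity)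
    have h2 : 0 ≤ r / 2 ^ 16 := by positivity
    linarith
  rw [Real.exp_neg, ← div_eq_mul_inv, div_le_iff₀ (Real.exp_pos _), div_div,
    ← mul_div_right_comm, one_mul, le_div_iff₀ (by positivity)]
  have h3 : 23328 * (C : ℝ) * (r * 8) ≤ (r / 2 ^ 16) ^ 2 / 2 := by
    have e1 : (r / 2 ^ 16) ^ 2 / 2 = r * (r / 2 ^ 33) := by ring
    have e2 : 23328 * (C : ℝ) * (r * 8) = r * (186624 * C) := by ring
    rw [e1, e2]
    refine mul_le_mul_of_nonneg_left ?_ hrp.le
    rw [le_div_iff₀ (by norm_num)]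
    refine le_trans ?_ hrC
    have : (0 : ℝ) ≤ C := by linarith
    nlinarith
  exact h3.trans hx

end Wn
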