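import Pool.Agent.Work.MP_959bfa_wn.Interface

/-! # MP_959bfa_co, block PARA (helper48): parameters of the union bound -/

namespace Wn

open Finset

theorem PARA (hCHO : stmt_CHO) : stmt_PARA := by
  refine ⟨2 ^ 32, by norm_num, ?_⟩
  intro k0 n κ M hk hkκ hM hMn hexp
  have hκr : (2 : ℝ) ^ 32 ≤ κ := hk.trans hkκ
  have hκ0 : (0 : ℝ) < κ := lt_of_lt_of_le (by norm_num) hκr
  have hM1 : (1 : ℝ) ≤ M := by exact_mod_cast hM
  have hM0 : (0 : ℝ) < M := by linarith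
  obtain ⟨s, hs⟩ : ∃ s : ℝ, s = Real.sqrt κ := ⟨_, rfl⟩
  obtain ⟨r, hr⟩ : ∃ r : ℝ, r = Real.sqrt (k0 * κ) := ⟨_, rfl⟩
  have hs0 : 0 ≤ s := by rw [hs]; exact Real.sqrt_nonneg _
  have hss : s ^ 2 = κ := by rw [hs]; exact Real.sq_sqrt hκ0.le
  have hs1 : (2 : ℝ) ^ 16 ≤ s := by
    rw [hs]
    refine Real.le_sqrt_of_sq_le ?_
    refine le_trans (le_of_eq ?_) hκr
    norm_num
  have hrs : (2 : ℝ) ^ 16 * s ≤ r := by
    rw [hr]
    refine Real.le_sqrt_of_sq_le ?_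
    have h1 : ((2 : ℝ) ^ 16 * s) ^ 2 = 2 ^ 32 * κ := by
      rw [mul_pow, hss]
      norm_num
    rw [h1]
    exact mul_le_mul_of_nonneg_right hk hκ0.le
  rw [← hr] at hexp ⊢
  -- `4 M ≤ n`
  have h4 : 4 * M ≤ n := by
    have h1 : (4 : ℕ) ≤ κ := by
      have : ((4 : ℕ) : ℝ) ≤ κ := le_trans (by norm_num) hκr
      exact_mod_cast this
    calc 4 * M = M * 4 := by ring
      _ ≤ M * κ := Nat.mul_le_mul_left _ h1
      _ ≤ n := hMn
  have hch := hCHO n (4 * M) (by omega) h4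
  obtain ⟨y, hy⟩ : ∃ y : ℝ, y = 2 + 2 * s + r / 2 ^ 15 := ⟨_, rfl⟩
  -- the base
  have hlogκ : Real.log κ ≤ 2 * s := by
    rw [← hss, Real.log_pow]
    have h1 := Real.log_le_sub_one_of_pos (lt_of_lt_of_le (by norm_num) hs1 : 0 < s)
    push_cast
    linarith
  have hκe : (κ : ℝ) ≤ Real.exp (2 * s) := by
    rw [← Real.exp_log hκ0]
    exact Real.exp_le_exp.2 hlogκ
  have hnM : (n : ℝ) / M ≤ κ * Real.exp (r / 2 ^ 15) := by
    rw [div_le_iff₀ hM0]
    have h1 : Real.exp (r / 2 ^ 15) * (Real.exp (-(r / 2 ^ 15)) * (n / κ)) ≤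
        Real.exp (r / 2 ^ 15) * M := mul_le_mul_of_nonneg_left hexp (Real.exp_pos _).le
    rw [← mul_assoc, ← Real.exp_add, add_neg_cancel, Real.exp_zero, one_mul,
      div_le_iff₀ hκ0] at h1
    calc (n : ℝ) ≤ Real.exp (r / 2 ^ 15) * M * κ := h1
      _ = κ * Real.exp (r / 2 ^ 15) * M := by ring
  have hbase : 8 * Real.exp 1 * n / ((4 * M : ℕ) : ℝ) ≤ Real.exp y := by
    have e1 : 8 * Real.exp 1 * n / ((4 * M : ℕ) : ℝ) = 2 * Real.exp 1 * (n / M) := by
      push_cast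
      field_simp
      ring
    rw [e1, hy]
    have h2 : (2 : ℝ) ≤ Real.exp 1 := by
      have := Real.add_one_le_exp (1 : ℝ)
      linarith
    have e2 : Real.exp (2 + 2 * s + r / 2 ^ 15) =
        Real.exp 1 * Real.exp 1 * (Real.exp (2 * s) * Real.exp (r / 2 ^ 15)) := by
      rw [← Real.exp_add, ← Real.exp_add, ← Real.exp_add]
      congr 1
      ring
    rw [e2]
    have h3 : (n : ℝ) / M ≤ Real.exp (2 * s) * Real.exp (r / 2 ^ 15) :=
      hnM.trans (mul_le_mul_of_nonneg_right hκe (Real.exp_pos _).le)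
    have h4 : (0 : ℝ) ≤ (n : ℝ) / M := by positivity
    exact mul_le_mul (mul_le_mul_of_nonneg_right h2 (Real.exp_pos _).le) h3 h4 (by positivity)
  have hb0 : 0 ≤ 8 * Real.exp 1 * n / ((4 * M : ℕ) : ℝ) := by positivity
  have hpow : (8 * Real.exp 1 * n / ((4 * M : ℕ) : ℝ)) ^ (4 * M) ≤ Real.exp (4 * M * y) := by
    refine (pow_le_pow_left₀ hb0 hbase (4 * M)).trans (le_of_eq ?_)
    rw [← Real.exp_nat_mul]
    congr 1
    push_cast
    ring
  have hfin : 4 * M * y + -(M * (r / 2048)) ≤ -1 := by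
    have h1 : 4 * y - r / 2048 ≤ -1 := by
      rw [hy]
      have : r / 2048 = 16 * (r / 2 ^ 15) := by ring
      have h2 : 2 * s ≤ r / 2 ^ 15 := by
        rw [le_div_iff₀ (by norm_num)]
        calc 2 * s * 2 ^ 15 = 2 ^ 16 * s := by ring
          _ ≤ r := hrs
      have h3 : (65536 : ℝ) ≤ s := le_trans (by norm_num) hs1
      linarith
    have h2 : 4 * M * y + -(M * (r / 2048)) = M * (4 * y - r / 2048) := by ring
    rw [h2]
    nlinarith
  have hexp1 : Real.exp (-1) < 1 / 2 := by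
    have h2 : (2 : ℝ) < Real.exp 1 := by
      have := Real.exp_one_gt_d9
      linarith
    rw [Real.exp_neg, inv_eq_one_div]
    exact one_div_lt_one_div_of_lt (by norm_num) h2
  calc ((∑ j ∈ range (4 * M + 1), n.choose j * 8 ^ j : ℕ) : ℝ) *
      Real.exp (-(M * (r / 2048)))
      ≤ Real.exp (4 * M * y) * Real.exp (-(M * (r / 2048))) :=
        mul_le_mul_of_nonneg_right (hch.trans hpow) (Real.exp_pos _).le
    _ = Real.exp (4 * M * y + -(M * (r / 2048))) := by rw [Real.exp_add]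
    _ ≤ Real.exp (-1) := Real.exp_le_exp.2 hfin
    _ < 1 / 2 := hexp1

end Wn
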