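import Pool.Agent.Work.MP_959bfa_wn.Interface

/-! # MP_959bfa_co, block PARB (helper48): parameters of the gap -/

namespace Wn

open Finset

/-- `log n` against `exp (r ^ 2 / 2 ^ 44)` -/
theorem parb_log {n κ : ℕ} {μ k0 r K : ℝ} (hK : (2 : ℝ) ^ 60 ≤ K) (hμ : 1 ≤ μ) (hKk : K ≤ k0)
    (hkκ : k0 ≤ κ) (hlog : K * Real.log (1 + Real.log μ) ≤ k0 ^ 2) (hn : 1 ≤ n)
    (hnm : (n : ℝ) ≤ 4 * μ * κ) (hr : r = Real.sqrt (k0 * κ)) :
    6 + 12 * Real.log n ≤ Real.exp (r ^ 2 / 2 ^ 44) := by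
  have hk0 : (2 : ℝ) ^ 60 ≤ k0 := hK.trans hKk
  have hk00 : (0 : ℝ) < k0 := lt_of_lt_of_le (by norm_num) hk0
  have hκ0 : (0 : ℝ) < κ := lt_of_lt_of_le hk00 hkκ
  have hμ0 : (0 : ℝ) < μ := by linarith
  have hn0 : (0 : ℝ) < n := by exact_mod_cast hn
  have hr2 : r ^ 2 = k0 * κ := by rw [hr]; exact Real.sq_sqrt (by positivity)
  have hr0 : 0 ≤ r := by rw [hr]; exact Real.sqrt_nonneg _
  have hkr : k0 ≤ r := by
    rw [hr]
    refine Real.le_sqrt_of_sq_le ?_
    nlinarith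
  have hr1 : (2 : ℝ) ^ 60 ≤ r := hk0.trans hkr
  have hrp : 0 < r := lt_of_lt_of_le (by norm_num) hr1
  have h1 : Real.log n ≤ Real.log 4 + Real.log μ + Real.log κ := by
    rw [← Real.log_mul (by norm_num) hμ0.ne', ← Real.log_mul (by positivity) hκ0.ne']
    exact Real.log_le_log hn0 hnm
  have h2 : Real.log 4 ≤ 3 := by
    have := Real.log_le_sub_one_of_pos (show (0 : ℝ) < 4 by norm_num)
    linarith
  have hlm : 0 ≤ Real.log μ := Real.log_nonneg hμ
  have h3 : Real.log μ ≤ Real.exp (r ^ 2 / 2 ^ 45) := by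
    have g1 : Real.log (1 + Real.log μ) ≤ r ^ 2 / 2 ^ 45 := by
      rw [le_div_iff₀ (by norm_num)]
      have g2 : 0 ≤ Real.log (1 + Real.log μ) := Real.log_nonneg (by linarith)
      have g3 : (2 : ℝ) ^ 45 ≤ K := le_trans (by norm_num) hK
      have g4 : Real.log (1 + Real.log μ) * 2 ^ 45 ≤ K * Real.log (1 + Real.log μ) := by
        rw [mul_comm]
        exact mul_le_mul_of_nonneg_right g3 g2
      have g5 : k0 ^ 2 ≤ r ^ 2 := pow_le_pow_left₀ hk00.le hkr 2
      linarith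
    have g6 := Real.exp_le_exp.2 g1
    rw [Real.exp_log (by linarith)] at g6
    linarith
  have h4 : Real.log κ ≤ 2 * r := by
    have g1 : (κ : ℝ) ≤ r ^ 2 := by
      rw [hr2]
      have : (1 : ℝ) ≤ k0 := le_trans (by norm_num) hk0
      nlinarith
    have g2 := Real.log_le_log hκ0 g1
    rw [Real.log_pow] at g2
    have g3 := Real.log_le_sub_one_of_pos hrp
    push_cast at g2
    linarith
  obtain ⟨z, hz⟩ : ∃ z : ℝ, z = Real.exp (r ^ 2 / 2 ^ 45) := ⟨_, rfl⟩
  have hzz : Real.exp (r ^ 2 / 2 ^ 44) = z ^ 2 := by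
    rw [hz, ← Real.exp_nat_mul]
    congr 1
    push_cast
    ring
  have hz1 : r ^ 2 / 2 ^ 45 + 1 ≤ z := by
    rw [hz]
    exact Real.add_one_le_exp _
  have hz2 : 24 * r ≤ z := by
    refine le_trans ?_ hz1
    have g1 : 24 * r ≤ r ^ 2 / 2 ^ 45 := by
      rw [le_div_iff₀ (by norm_num)]
      have g2 : (24 : ℝ) * 2 ^ 45 ≤ r := le_trans (by norm_num) hr1
      nlinarith
    linarith
  have hz3 : (100 : ℝ) ≤ z := by
    have g1 : (100 : ℝ) ≤ 24 * r := by
      have : (100 : ℝ) ≤ r := le_trans (by norm_num) hr1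
      linarith
    linarith
  rw [hzz]
  rw [← hz] at h3
  nlinarith

theorem PARB : stmt_PARB := by
  intro C hC
  have hCr : (1 : ℝ) ≤ C := by exact_mod_cast hC
  refine ⟨2 ^ 60 * C, by nlinarith [show (1 : ℝ) ≤ 2 ^ 60 by norm_num], ?_⟩
  intro F μ k0 n κ hF hμ hk hkκ hKF hKμ hn hnm
  have hK : (2 : ℝ) ^ 60 ≤ 2 ^ 60 * C := by nlinarith [show (0 : ℝ) < 2 ^ 60 by norm_num]
  obtain ⟨r, hr⟩ : ∃ r : ℝ, r = Real.sqrt (k0 * κ) := ⟨_, rfl⟩
  have hlog := parb_log hK hμ hk hkκ hKμ hn hnm hr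
  have hk0 : (2 : ℝ) ^ 60 ≤ k0 := hK.trans hk
  have hk00 : (0 : ℝ) < k0 := lt_of_lt_of_le (by norm_num) hk0
  have hκ0 : (0 : ℝ) < κ := lt_of_lt_of_le hk00 hkκ
  have hr2 : r ^ 2 = k0 * κ := by rw [hr]; exact Real.sq_sqrt (by positivity)
  have hkr : k0 ≤ r := by
    rw [hr]
    refine Real.le_sqrt_of_sq_le ?_
    nlinarith
  have hr1 : (2 : ℝ) ^ 60 ≤ r := hk0.trans hkr
  have hrC : (2 : ℝ) ^ 60 * C ≤ r := hk.trans hkr
  have hrp : 0 < r := lt_of_lt_of_le (by norm_num) hr1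
  rw [← hr]
  have hln : 0 ≤ Real.log n := Real.log_nonneg (by exact_mod_cast hn)
  obtain ⟨lam, hlam⟩ : ∃ lam : ℕ, lam = ⌈Real.exp (r / 2 ^ 20)⌉₊ := ⟨_, rfl⟩
  obtain ⟨j, hj⟩ : ∃ j : ℕ, j = ⌈r / 2 ^ 23⌉₊ := ⟨_, rfl⟩
  obtain ⟨L, hL⟩ : ∃ L : ℝ, L = max 1 (2 * Real.log n) := ⟨_, rfl⟩
  obtain ⟨w, hw⟩ : ∃ w : ℕ, w = ⌈5 * L⌉₊ := ⟨_, rfl⟩
  have hL1 : 1 ≤ L := by rw [hL]; exact le_max_left _ _
  have hLn : 2 * Real.log n ≤ L := by rw [hL]; exact le_max_right _ _
  have hL2 : L ≤ 1 + 2 * Real.log n := by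
    rw [hL]
    exact max_le (by linarith) (by linarith)
  have hw1 : 5 * L ≤ w := by rw [hw]; exact Nat.le_ceil _
  have hw2 : (w : ℝ) ≤ 6 * L := by
    have h1 : (w : ℝ) < 5 * L + 1 := by
      rw [hw]
      exact Nat.ceil_lt_add_one (by linarith)
    linarith
  have hj1 : r / 2 ^ 23 ≤ j := by rw [hj]; exact Nat.le_ceil _
  have hj2 : (j : ℝ) ≤ r / 2 ^ 23 + 1 := by
    rw [hj]
    exact (Nat.ceil_lt_add_one (by positivity)).le
  have hl1 : Real.exp (r / 2 ^ 20) ≤ lam := by rw [hlam]; exact Nat.le_ceil _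
  have he1 : (1 : ℝ) ≤ Real.exp (r / 2 ^ 20) := Real.one_le_exp (by positivity)
  have hl2 : (lam : ℝ) ≤ 2 * Real.exp (r / 2 ^ 20) := by
    have h1 : (lam : ℝ) < Real.exp (r / 2 ^ 20) + 1 := by
      rw [hlam]
      exact Nat.ceil_lt_add_one (Real.exp_pos _).le
    linarith
  have hl0 : (0 : ℝ) < lam := lt_of_lt_of_le (Real.exp_pos _) hl1
  -- 32 ≤ lam
  have hlam32 : 32 ≤ lam := by
    have h1 : (32 : ℝ) ≤ lam := by
      refine le_trans ?_ hl1
      have h2 := Real.add_one_le_exp (r / 2 ^ 20)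
      have h3 : (31 : ℝ) ≤ r / 2 ^ 20 := by
        rw [le_div_iff₀ (by norm_num)]
        exact le_trans (by norm_num) hr1
      linarith
    exact_mod_cast h1
  have hexp1 : Real.exp 1 ≤ 3 := by
    have := Real.exp_one_lt_d9
    linarith
  refine ⟨lam, j, w, L, hlam32, ?_, hL1, hw1, hw2, hLn, ?_⟩
  · -- w 16 ^ j ≤ lam ^ (j + 1)
    have h16 : (16 : ℝ) ≤ Real.exp 3 := by
      have h1 : (2.7 : ℝ) ≤ Real.exp 1 := by
        have := Real.exp_one_gt_d9
        linarith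
      have h2 : Real.exp 3 = Real.exp 1 ^ 3 := by
        rw [← Real.exp_nat_mul]
        norm_num
      rw [h2]
      have h3 := pow_le_pow_left₀ (by norm_num) h1 3
      refine le_trans ?_ h3
      norm_num
    have h1 : Real.exp (r ^ 2 / 2 ^ 44) * 16 ^ j ≤ (lam : ℝ) ^ j := by
      have g1 : (16 : ℝ) ^ j ≤ Real.exp (3 * j) := by
        have := pow_le_pow_left₀ (by norm_num) h16 j
        rw [← Real.exp_nat_mul] at this
        rwa [mul_comm (3 : ℝ)]
      have g2 : Real.exp (r / 2 ^ 20 * j) ≤ (lam : ℝ) ^ j := by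
        have := pow_le_pow_left₀ (Real.exp_pos _).le hl1 j
        rw [← Real.exp_nat_mul] at this
        rwa [mul_comm (r / 2 ^ 20)]
      refine le_trans ?_ g2
      refine (mul_le_mul_of_nonneg_left g1 (Real.exp_pos _).le).trans ?_
      rw [← Real.exp_add]
      refine Real.exp_le_exp.2 ?_
      have g3 : r ^ 2 / 2 ^ 44 ≤ r / 2 ^ 21 * j := by
        have : r / 2 ^ 21 * (r / 2 ^ 23) ≤ r / 2 ^ 21 * j :=
          mul_le_mul_of_nonneg_left hj1 (by positivity)
        refine le_trans (le_of_eq ?_) this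
        ring
      have g4 : 3 * (j : ℝ) ≤ r / 2 ^ 21 * j := by
        refine mul_le_mul_of_nonneg_right ?_ (Nat.cast_nonneg _)
        rw [le_div_iff₀ (by norm_num)]
        exact le_trans (by norm_num) hr1
      have g5 : r / 2 ^ 20 * (j : ℝ) = r / 2 ^ 21 * j + r / 2 ^ 21 * j := by ring
      linarith
    have h2 : (w : ℝ) ≤ Real.exp (r ^ 2 / 2 ^ 44) := by linarith
    have h3 : (w : ℝ) * 16 ^ j ≤ (lam : ℝ) ^ (j + 1) := by
      have g1 : (w : ℝ) * 16 ^ j ≤ Real.exp (r ^ 2 / 2 ^ 44) * 16 ^ j :=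
        mul_le_mul_of_nonneg_right h2 (by positivity)
      refine (g1.trans h1).trans ?_
      exact pow_le_pow_right₀ (by exact_mod_cast (show 1 ≤ lam by omega)) (Nat.le_succ j)
    exact_mod_cast h3
  · -- the last inequality
    have hFe : F ≤ Real.exp (r / 2 ^ 20) := by
      have h1 : Real.log F ≤ r / 2 ^ 20 := by
        rw [le_div_iff₀ (by norm_num)]
        have h2 : 0 ≤ Real.log F := Real.log_nonneg hF
        have h3 : Real.log F * 2 ^ 20 ≤ 2 ^ 60 * C * Real.log F := by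
          have : (2 : ℝ) ^ 20 ≤ 2 ^ 60 * C := le_trans (by norm_num) hK
          nlinarith
        linarith
      calc F = Real.exp (Real.log F) := (Real.exp_log (by linarith)).symm
        _ ≤ _ := Real.exp_le_exp.2 h1
    have h64 : (64 : ℝ) ^ j ≤ Real.exp (5 * (r / 2 ^ 23 + 1)) := by
      have g1 : (64 : ℝ) ≤ Real.exp 5 := by
        have h1 : (2.7 : ℝ) ≤ Real.exp 1 := by
          have := Real.exp_one_gt_d9
          linarith
        have h2 : Real.exp 5 = Real.exp 1 ^ 5 := by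
          rw [← Real.exp_nat_mul]
          norm_num
        rw [h2]
        have h3 := pow_le_pow_left₀ (by norm_num) h1 5
        refine le_trans ?_ h3
        norm_num
      have g2 := pow_le_pow_left₀ (by norm_num) g1 j
      rw [← Real.exp_nat_mul] at g2
      refine g2.trans (Real.exp_le_exp.2 ?_)
      linarith
    have hlam3 : (lam : ℝ) ^ 3 ≤ 8 * Real.exp (3 * (r / 2 ^ 20)) := by
      have g1 := pow_le_pow_left₀ hl0.le hl2 3
      refine g1.trans (le_of_eq ?_)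
      rw [mul_pow, ← Real.exp_nat_mul]
      norm_num
    have he5 : Real.exp 5 ≤ 243 := by
      have h2 : Real.exp 5 = Real.exp 1 ^ 5 := by
        rw [← Real.exp_nat_mul]
        norm_num
      rw [h2]
      have h3 := pow_le_pow_left₀ (Real.exp_pos _).le hexp1 5
      refine h3.trans ?_
      norm_num
    -- left side
    have hleft : 12 * F * (C * 64 ^ j * lam ^ 3) * Real.exp (-(r / 2 ^ 15)) ≤
        23328 * C * Real.exp (-(r / 2 ^ 16)) := by
      have g1 : 12 * F * (C * 64 ^ j * (lam : ℝ) ^ 3) ≤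
          12 * Real.exp (r / 2 ^ 20) * (C * Real.exp (5 * (r / 2 ^ 23 + 1)) *
            (8 * Real.exp (3 * (r / 2 ^ 20)))) := by
        refine mul_le_mul (by linarith) ?_ (by positivity) (by positivity)
        refine mul_le_mul ?_ hlam3 (by positivity) (by positivity)
        exact mul_le_mul_of_nonneg_left h64 (by positivity)
      have g2 : 12 * Real.exp (r / 2 ^ 20) * (C * Real.exp (5 * (r / 2 ^ 23 + 1)) *
            (8 * Real.exp (3 * (r / 2 ^ 20)))) * Real.exp (-(r / 2 ^ 15)) =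
          96 * C * Real.exp 5 * Real.exp (4 * (r / 2 ^ 20) + 5 * (r / 2 ^ 23) - r / 2 ^ 15) := by
        have e1 : Real.exp (4 * (r / 2 ^ 20) + 5 * (r / 2 ^ 23) - r / 2 ^ 15) =
            Real.exp (r / 2 ^ 20) * Real.exp (3 * (r / 2 ^ 20)) * Real.exp (5 * (r / 2 ^ 23)) *
              Real.exp (-(r / 2 ^ 15)) := by
          rw [← Real.exp_add, ← Real.exp_add, ← Real.exp_add]
          congr 1
          ring
        have e2 : Real.exp (5 * (r / 2 ^ 23 + 1)) = Real.exp 5 * Real.exp (5 * (r / 2 ^ 23)) := by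
          rw [← Real.exp_add]
          congr 1
          ring
        rw [e1, e2]
        ring
      calc 12 * F * (C * 64 ^ j * lam ^ 3) * Real.exp (-(r / 2 ^ 15))
          ≤ 12 * Real.exp (r / 2 ^ 20) * (C * Real.exp (5 * (r / 2 ^ 23 + 1)) *
            (8 * Real.exp (3 * (r / 2 ^ 20)))) * Real.exp (-(r / 2 ^ 15)) :=
            mul_le_mul_of_nonneg_right g1 (Real.exp_pos _).le
        _ = 96 * C * Real.exp 5 *
            Real.exp (4 * (r / 2 ^ 20) + 5 * (r / 2 ^ 23) - r / 2 ^ 15) := g2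
        _ ≤ 96 * C * 243 * Real.exp (-(r / 2 ^ 16)) := by
            refine mul_le_mul ?_ ?_ (Real.exp_pos _).le (by positivity)
            · exact mul_le_mul_of_nonneg_left he5 (by positivity)
            · refine Real.exp_le_exp.2 ?_
              have e1 : r / 2 ^ 15 = 256 * (r / 2 ^ 23) := by ring
              have e2 : r / 2 ^ 16 = 128 * (r / 2 ^ 23) := by ring
              have e3 : r / 2 ^ 20 = 8 * (r / 2 ^ 23) := by ring
              have e4 : 0 ≤ r / 2 ^ 23 := by positivity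
              rw [e1, e2, e3]
              linarith
        _ = 23328 * C * Real.exp (-(r / 2 ^ 16)) := by ring
    -- right side
    have hright : 1 / r / 8 ≤ k0 * Real.sqrt (Real.sqrt (k0 / κ)) / 8 := by
      have g1 : (1 : ℝ) ≤ r := le_trans (by norm_num) hr1
      have g0 : (1 : ℝ) ≤ k0 := le_trans (by norm_num) hk0
      have g2 : 1 / r ≤ Real.sqrt (k0 / κ) := by
        refine Real.le_sqrt_of_sq_le ?_
        rw [div_pow, one_pow, hr2, div_le_div_iff₀ (by positivity) hκ0]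
        nlinarith
      have g3 : 1 / r ≤ Real.sqrt (Real.sqrt (k0 / κ)) := by
        refine Real.le_sqrt_of_sq_le (le_trans ?_ g2)
        have g4 : 1 / r ≤ 1 := by
          rw [div_le_one hrp]
          exact g1
        have g5 : 0 ≤ 1 / r := by positivity
        nlinarith
      have g4 : 1 * (1 / r) ≤ k0 * Real.sqrt (Real.sqrt (k0 / κ)) :=
        mul_le_mul g0 g3 (by positivity) hk00.le
      linarith
    refine hleft.trans (le_trans ?_ hright)
    -- 23328 C exp(-x) ≤ 1 / (8 r)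
    have hx : (r / 2 ^ 16) ^ 2 / 2 ≤ Real.exp (r / 2 ^ 16) := by
      have := Real.quadratic_le_exp_of_nonneg (show 0 ≤ r / 2 ^ 16 by positivity)
      have h2 : 0 ≤ r / 2 ^ 16 := by positivity
      linarith
    rw [Real.exp_neg, ← div_eq_mul_inv, div_le_iff₀ (Real.exp_pos _), div_div,
      ← mul_div_right_comm, one_mul, le_div_iff₀ (by positivity)]
    have h3 : 23328 * (C : ℝ) * (r * 8) ≤ (r / 2 ^ 16) ^ 2 / 2 := by
      have e1 : (r / 2 ^ 16) ^ 2 / 2 = r * (r / 2 ^ 33) := by ring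
      have e2 : 23328 * (C : ℝ) * (r * 8) = r * (186624 * C) := by ring
      rw [e1, e2]
      refine mul_le_mul_of_nonneg_left ?_ hrp.le
      rw [le_div_iff₀ (by norm_num)]
      refine le_trans ?_ hrC
      have : (0 : ℝ) ≤ C := by linarith
      nlinarith
    exact h3.trans hx

end Wn
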